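import Pool.Agent.W203.BY.Stm
set_option autoImplicit false

namespace Pool.Agent.W409.BY

open Pool.Agent.W203.BY

theorem step (h : S_ARCH) (J : Type) [LinearOrder J] (ι : J → ℝ) (hι : StrictMono ι)
    (hinf : ∀ (x : ℕ → J) (m : J), (∀ n, m ≤ x n) → ∃ z, (∀ n, z ≤ x n) ∧
      ∀ s, (∀ n, s ≤ x n) → s ≤ z)
    (hnest : ∀ u v : ℕ → J, Monotone u → Antitone v → (∀ n, u n ≤ v n) →
      ∃ w, ∀ n, u n ≤ w ∧ w ≤ v n)
    (G : J → J → J) (hG : Op G) (p q c : J) (hpc : p < c) (hpq : p < q) :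
    ∃ n : ℕ, (G p)^[n] q < c := by
  by_contra hcon
  push Not at hcon
  obtain ⟨z, hz1, hz2⟩ := hinf (fun n => (G p)^[n] q) c hcon
  have hcz : c ≤ z := hz2 c hcon
  have hpz : p < z := lt_of_lt_of_le hpc hcz
  have hdec : ∀ n, (G p)^[n + 1] q < (G p)^[n] q := by
    intro n
    rw [Function.iterate_succ_apply']
    have h1 : p < (G p)^[n] q := lt_of_lt_of_le hpc (hcon n)
    have h2 := hG.m1 ((G p)^[n] q) h1
    simp only [hG.refl] at h2
    exact h2
  have hzl : ∀ n, z < (G p)^[n] q := fun n => lt_of_le_of_lt (hz1 (n + 1)) (hdec n)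
  have hmap : ∀ x y : J, p ≤ x → p ≤ y → x ≤ q → y ≤ q → p ≤ G x y ∧ G x y ≤ q := by
    intro x y h1 h2 h3 h4
    constructor
    · calc p = G p p := (hG.refl p).symm
        _ ≤ G p y := (hG.m2 p).monotone h2
        _ ≤ G x y := (hG.m1 y).monotone h1
    · calc G x y ≤ G q y := (hG.m1 y).monotone h3
        _ ≤ G q q := (hG.m2 q).monotone h4
        _ = q := hG.refl q
  let G' : Set.Icc p q → Set.Icc p q → Set.Icc p q := fun x y =>
    ⟨G x.1 y.1, hmap x.1 y.1 x.2.1 y.2.1 x.2.2 y.2.2⟩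
  have hG' : Op G' := by
    refine ⟨?_, ?_, ?_, ?_⟩
    · intro x
      exact Subtype.ext (hG.refl x.1)
    · intro x y u v
      exact Subtype.ext (hG.bis x.1 y.1 u.1 v.1)
    · intro y x x' hx
      exact hG.m1 y.1 hx
    · intro x y y' hy
      exact hG.m2 x.1 hy
  let a : Set.Icc p q := ⟨p, le_refl p, hpq.le⟩
  let b : Set.Icc p q := ⟨q, hpq.le, le_refl q⟩
  have hit : ∀ n : ℕ, ((G' a)^[n] b).1 = (G p)^[n] q := by
    intro n
    induction n with
    | zero => rfl
    | succ n ih =>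
      rw [Function.iterate_succ_apply', Function.iterate_succ_apply', ← ih]
  refine h (Set.Icc p q) a b ⟨z, hpz.le, hz1 0⟩ G' (fun x => ι x.1) (fun x => x.2.1)
    (fun x => x.2.2) hG' (fun x y hxy => hι hxy) ?_ hpz ?_ ?_
  · intro u v hu hv huv
    obtain ⟨w, hw⟩ := hnest (fun n => (u n).1) (fun n => (v n).1) (fun i j hij => hu hij)
      (fun i j hij => hv hij) (fun n => huv n)
    exact ⟨⟨w, (u 0).2.1.trans (hw 0).1, (hw 0).2.trans (v 0).2.2⟩, fun n => hw n⟩
  · intro n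
    show z < ((G' a)^[n] b).1
    rw [hit n]
    exact hzl n
  · intro s hs
    by_contra hn
    push Not at hn
    have : s.1 ≤ z := by
      apply hz2
      intro n
      have := hn n
      show s.1 ≤ (G p)^[n] q
      rw [← hit n]
      exact this
    exact absurd hs (not_lt.mpr this)

theorem inf_icc (a b : ℝ) (x : ℕ → Set.Icc a b) : ∃ z : Set.Icc a b, (∀ n, z ≤ x n) ∧
    ∀ s, (∀ n, s ≤ x n) → s ≤ z := by
  have hbd : BddBelow (Set.range (fun n => (x n).1)) := by
    refine ⟨a, ?_⟩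
    rintro y ⟨n, rfl⟩
    exact (x n).2.1
  have hle : ∀ n, sInf (Set.range (fun n => (x n).1)) ≤ (x n).1 := fun n =>
    csInf_le hbd ⟨n, rfl⟩
  have hge : a ≤ sInf (Set.range (fun n => (x n).1)) := by
    apply le_csInf (Set.range_nonempty _)
    rintro y ⟨n, rfl⟩
    exact (x n).2.1
  refine ⟨⟨sInf (Set.range (fun n => (x n).1)), hge, (hle 0).trans (x 0).2.2⟩, hle, ?_⟩
  intro s hs
  show s.1 ≤ sInf (Set.range (fun n => (x n).1))
  apply le_csInf (Set.range_nonempty _)
  rintro y ⟨n, rfl⟩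
  exact hs n

theorem sup_icc (a b : ℝ) (x : ℕ → Set.Icc a b) : ∃ z : Set.Icc a b, (∀ n, x n ≤ z) ∧
    ∀ s, (∀ n, x n ≤ s) → z ≤ s := by
  have hbd : BddAbove (Set.range (fun n => (x n).1)) := by
    refine ⟨b, ?_⟩
    rintro y ⟨n, rfl⟩
    exact (x n).2.2
  have hle : ∀ n, (x n).1 ≤ sSup (Set.range (fun n => (x n).1)) := fun n =>
    le_csSup hbd ⟨n, rfl⟩
  have hge : sSup (Set.range (fun n => (x n).1)) ≤ b := by
    apply csSup_le (Set.range_nonempty _)
    rintro y ⟨n, rfl⟩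
    exact (x n).2.2
  refine ⟨⟨sSup (Set.range (fun n => (x n).1)), (x 0).2.1.trans (hle 0), hge⟩, hle, ?_⟩
  intro s hs
  show sSup (Set.range (fun n => (x n).1)) ≤ s.1
  apply csSup_le (Set.range_nonempty _)
  rintro y ⟨n, rfl⟩
  exact hs n

theorem nest_icc (a b : ℝ) (u v : ℕ → Set.Icc a b) (hu : Monotone u) (hv : Antitone v)
    (huv : ∀ n, u n ≤ v n) : ∃ w, ∀ n, u n ≤ w ∧ w ≤ v n := by
  obtain ⟨w, hw1, hw2⟩ := sup_icc a b u
  refine ⟨w, fun n => ⟨hw1 n, hw2 _ (fun m => ?_)⟩⟩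
  calc u m ≤ u (max m n) := hu (le_max_left _ _)
    _ ≤ v (max m n) := huv _
    _ ≤ v n := hv (le_max_right _ _)

theorem t_LIM (h : S_ARCH) : S_LIM := by
  intro a b G hG p q c
  constructor
  · intro hpc hpq
    have hG' : Op (fun x y => G y x) := by
      refine ⟨hG.refl, ?_, hG.m2, hG.m1⟩
      intro x y u v
      exact hG.bis v u y x
    exact step h (Set.Icc a b) Subtype.val (fun x y hxy => hxy)
      (fun x _ _ => inf_icc a b x) (nest_icc a b) (fun x y => G y x) hG' p q c hpc hpq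
  · intro hcp hqp
    let Gd : (Set.Icc a b)ᵒᵈ → (Set.Icc a b)ᵒᵈ → (Set.Icc a b)ᵒᵈ := fun x y =>
      OrderDual.toDual (G (OrderDual.ofDual y) (OrderDual.ofDual x))
    have hGd : Op Gd := by
      refine ⟨?_, ?_, ?_, ?_⟩
      · intro x
        exact hG.refl (OrderDual.ofDual x)
      · intro x y u v
        exact hG.bis (OrderDual.ofDual v) (OrderDual.ofDual u) (OrderDual.ofDual y)
          (OrderDual.ofDual x)
      · intro y x x' hx
        exact hG.m2 (OrderDual.ofDual y) hx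
      · intro x y y' hy
        exact hG.m1 (OrderDual.ofDual x) hy
    obtain ⟨n, hn⟩ := step h (Set.Icc a b)ᵒᵈ (fun x => -((OrderDual.ofDual x).1 : ℝ))
      (fun x y hxy => neg_lt_neg hxy)
      (fun x _ _ => sup_icc a b (fun n => OrderDual.ofDual (x n)))
      (by
        intro u v hu hv huv
        obtain ⟨w, hw⟩ := nest_icc a b (fun n => OrderDual.ofDual (v n))
          (fun n => OrderDual.ofDual (u n)) (fun i j hij => hv hij) (fun i j hij => hu hij)
          (fun n => huv n)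
        exact ⟨OrderDual.toDual w, fun n => ⟨(hw n).2, (hw n).1⟩⟩)
      Gd hGd (OrderDual.toDual p) (OrderDual.toDual q) (OrderDual.toDual c) hcp hqp
    refine ⟨n, ?_⟩
    have hit : ∀ n : ℕ, OrderDual.ofDual ((Gd (OrderDual.toDual p))^[n] (OrderDual.toDual q)) =
        (fun x => G x p)^[n] q := by
      intro n
      induction n with
      | zero => rfl
      | succ n ih =>
        rw [Function.iterate_succ_apply', Function.iterate_succ_apply', ← ih]
        rfl
    rw [← hit n]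
    exact hn

end Pool.Agent.W409.BY
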